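import Pool.Agent.H973R3.H3.Final

/-!
The three-arm bound in a half ball, with explicit rates.
-/

set_option maxHeartbeats 1000000

namespace H973S

open H974 H12S Finset

theorem H3_bound_of {κ : ℝ} (hκ : 0 < κ)
    (hblk : ∀ (q : ℝ) (n : ℕ), Win q κ n → ∀ m : ℕ, 1 ≤ m → 2 * m ≤ n → ∀ (c1 c2 : ℤ)
      (S : Finset Edg), κ ^ 4 ≤ PQ q S (fun F => ¬ Crs c1 c2 m (3 * m) ↑F))
    (harm : ∃ C c : ℝ, 0 < C ∧ 0 < c ∧ ∀ (q : ℝ) (n : ℕ),
      Win q κ n → ∀ ρ R : ℕ, 1 ≤ ρ → ρ ≤ R → R ≤ n → ∀ (c1 c2 : ℤ) (S : Finset Edg),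
      PQ q S (fun F => Crs c1 c2 ρ R ↑F) ≤ C * ((ρ:ℝ) / R) ^ c) :
    ∃ C c : ℝ, 0 < C ∧ 0 < c ∧ ∀ (q : ℝ) (n : ℕ),
      Win q κ n → ∀ r ρ : ℕ, 1 ≤ r → r ≤ ρ → ρ ≤ n → ∀ (x0 y0 : ℤ) (S : Finset Edg),
      hbU x0 y0 ρ ⊆ S →
      PQ q S (fun F => H3 x0 y0 r ρ ↑F) ≤ C * ((r:ℝ) / ρ) ^ (1 + c) := by
  obtain ⟨C0, c, hC0, hc, harm⟩ := harm
  refine ⟨48 * C0 * (8:ℝ)^c / κ^8 + (16:ℝ)^(1 + c), c, by positivity, hc, ?_⟩
  intro q n hw r ρ hr hrρ hρn x0 y0 S hS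
  have h0 : 0 ≤ q := by linarith [hw.lo]
  have h1 : q ≤ 1 := by linarith [hw.hi]
  have ok := okq h0 h1
  have hr' : (1:ℝ) ≤ r := by exact_mod_cast hr
  have hρ' : (1:ℝ) ≤ ρ := by exact_mod_cast hr.trans hrρ
  have hx0 : 0 < (r:ℝ) / ρ := by positivity
  have hpos1 : 0 ≤ 48 * C0 * (8:ℝ)^c / κ^8 * ((r:ℝ) / ρ)^(1 + c) := by positivity
  have hpos2 : 0 ≤ (16:ℝ)^(1 + c) * ((r:ℝ) / ρ)^(1 + c) := by positivity
  rw [add_mul]
  by_cases hcase : 16 * r ≤ ρ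
  · -- main case
    set m : ℕ := ρ / 4 with hm
    set M : ℕ := (2 * m + 1) / (2 * r + 1) with hM
    have hm1 : 4 * r ≤ m := by omega
    have hm4 : 4 * m ≤ ρ := by omega
    have hm8 : ρ ≤ 8 * m := by omega
    have hMle : M * (2 * r + 1) ≤ 2 * m + 1 := Nat.div_mul_le_self _ _
    have hMgt : 2 * m + 1 < (M + 1) * (2 * r + 1) := by
      have k := Nat.lt_div_mul_add (a := 2 * m + 1) (b := 2 * r + 1) (by omega)
      rw [← hM] at k
      rw [add_mul, one_mul]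
      exact k
    have hM2 : 2 ≤ M := by
      rw [hM, Nat.le_div_iff_mul_le (by omega)]
      omega
    have hmr : (4:ℝ) * r ≤ m := by exact_mod_cast hm1
    have hm0 : (0:ℝ) < m := by linarith
    have hMr : (ρ:ℝ) / (24 * r) ≤ M := by
      have k1 : (2 * (m:ℝ) + 1) < (M + 1) * (2 * r + 1) := by exact_mod_cast hMgt
      have k2 : (2:ℝ) ≤ M := by exact_mod_cast hM2
      have k3 : (ρ:ℝ) ≤ 8 * m := by exact_mod_cast hm8
      rw [div_le_iff₀ (by positivity)]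
      nlinarith
    set β : ℝ := C0 * ((r:ℝ) / m)^c with hβdef
    have hβ0 : 0 ≤ β := by rw [hβdef]; positivity
    have hlam : PQ q (Om x0 y0 m) (fun F => Crs x0 y0 m (3 * m) ↑F) ≤ 1 - κ^4 := by
      have k1 := hblk q n hw m (by omega) (by omega) x0 y0 (Om x0 y0 m)
      rw [PQ, Pr_not] at k1
      unfold PQ
      linarith
    have hβ : ∀ (s : ℤ), x0 - m ≤ s → s + 2 * r ≤ x0 + m → ∀ K, K ⊆ Om x0 y0 m →
        PQ q (Om x0 y0 m \ K)
          (fun G => ∃ j ≤ 2 * r, ∃ u ∈ Tg x0 y0 m, Reach (↑G : Set Edg) (sv s y0 j) u) ≤ β := by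
      intro s hs1 hs2 K _
      have k1 := harm q n hw (2 * r) (2 * m) (by omega) (by omega) (by omega) s y0
        (Om x0 y0 m \ K)
      have k2 : ((2 * r : ℕ) : ℝ) / ((2 * m : ℕ) : ℝ) = (r:ℝ) / m := by
        push_cast
        rw [mul_div_mul_left _ _ (by norm_num)]
      rw [k2] at k1
      refine le_trans (Pr_mono ok ?_) k1
      rintro G _ ⟨j, hj, u, ⟨hu1, hu2⟩, hR⟩
      refine ⟨sv s y0 j, u, ?_, ?_, hR⟩
      · unfold inR sv; push_cast; omega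
      · unfold inR at hu1
        push_cast
        omega
    have hmain := h3_main h0 h1 (r := r) (m := m) (ρ := ρ) (M := M) (by omega) hm4
      (lam := 1 - κ^4) (β := β) (by have : 0 < κ^4 := by positivity
                                    linarith) hMle hlam hβ0 hβ hS
    have hk8 : 2 / (1 - (1 - κ^4))^2 = 2 / κ^8 := by
      congr 1
      ring
    rw [hk8] at hmain
    set P0 := PQ q S (fun F => H3 x0 y0 r ρ ↑F) with hP0
    have hP0' : 0 ≤ P0 := Pr_nonneg ok _ _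
    have i1 : (ρ:ℝ) / (24 * r) * P0 ≤ β * (2 / κ^8) :=
      (mul_le_mul_of_nonneg_right hMr hP0').trans hmain
    have i2 : β ≤ C0 * ((8:ℝ)^c * ((r:ℝ) / ρ)^c) := by
      rw [hβdef, ← Real.mul_rpow (by norm_num) hx0.le]
      apply mul_le_mul_of_nonneg_left _ hC0.le
      apply Real.rpow_le_rpow (by positivity) _ hc.le
      rw [← mul_div_assoc, div_le_div_iff₀ hm0 (by linarith)]
      have k3 : (ρ:ℝ) ≤ 8 * m := by exact_mod_cast hm8
      nlinarith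
    have i3 : P0 = 24 * ((r:ℝ) / ρ) * ((ρ:ℝ) / (24 * r) * P0) := by
      field_simp
    have i4 : P0 ≤ 24 * ((r:ℝ) / ρ) * (C0 * ((8:ℝ)^c * ((r:ℝ) / ρ)^c) * (2 / κ^8)) := by
      rw [i3]
      apply mul_le_mul_of_nonneg_left _ (by positivity)
      exact i1.trans (mul_le_mul_of_nonneg_right i2 (by positivity))
    have i5 : 24 * ((r:ℝ) / ρ) * (C0 * ((8:ℝ)^c * ((r:ℝ) / ρ)^c) * (2 / κ^8)) =
        48 * C0 * (8:ℝ)^c / κ^8 * ((r:ℝ) / ρ)^(1 + c) := by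
      rw [Real.rpow_add hx0, Real.rpow_one]
      ring
    rw [i5] at i4
    linarith
  · -- trivial case
    have k1 : PQ q S (fun F => H3 x0 y0 r ρ ↑F) ≤ 1 := Pr_le_one ok _ _
    have k2 : (1:ℝ) ≤ 16 * ((r:ℝ) / ρ) := by
      rw [← mul_div_assoc, le_div_iff₀ (by linarith), one_mul]
      have : ρ ≤ 16 * r := by omega
      exact_mod_cast this
    have k3 : (1:ℝ) ≤ (16 * ((r:ℝ) / ρ))^(1 + c) := Real.one_le_rpow k2 (by linarith)
    rw [Real.mul_rpow (by norm_num) hx0.le] at k3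
    linarith

end H973S
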