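import Pool.Agent.H973R3.H3.Topo

/-!
The first clusters reaching the target, explored from disjoint segments, are different; hence the
expected number of segments for which `H2` occurs is bounded.
-/

set_option maxHeartbeats 1000000

namespace H973S

open H974 H12S Finset
open H973 (EV no_cross hline' vline' reach_EV)

/-- The three other sides of a box. -/
def rim (a b c d : ℤ) : Set Vtx := {v | inR a b c d v ∧ (v.1 = a ∨ v.1 = b ∨ v.2 = d)}

theorem distinct {a b c d s s' : ℤ} {r : ℕ} {F : Finset Edg} (hcd : c ≤ d)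
    (hF : F ⊆ RE a b c d) (ha : a ≤ s) (hss : s + r < s') (hb : s' + r ≤ b) {i j i' : ℕ}
    (hi : i ≤ r) (hn : nof (rim a b c d) s c (↑F : Set Edg) i) (hij : i < j) (hj : j ≤ r)
    (hV : ¬ VV (rim a b c d) s c r (↑F : Set Edg) (sv s c j))
    (hR : ∃ u ∈ rim a b c d,
      Reach (↑(RE a b c d \ KE (RE a b c d) (rim a b c d) s c r ↑F) : Set Edg) (sv s c j) u)
    (hi' : i' ≤ r) : ¬ Reach (↑F : Set Edg) (sv s c i) (sv s' c i') := by
  intro hcon
  obtain ⟨u, ⟨hu1, hu2⟩, hR⟩ := hR
  set W : Vtx → Prop := fun w => Reach (↑F : Set Edg) (sv s c i) w with hW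
  have hWV : ∀ w, W w → VV (rim a b c d) s c r (↑F : Set Edg) w := fun w hw => ⟨i, hi, hn, hw⟩
  have hnW : ∀ w, Reach (↑(RE a b c d \ KE (RE a b c d) (rim a b c d) s c r ↑F) : Set Edg)
      (sv s c j) w → ¬ W w := by
    intro w hw
    induction hw with
    | refl => exact fun h => hV (hWV _ h)
    | @tail v' v'' _ hs ih =>
      obtain ⟨e, he, hc⟩ := hs
      rw [Finset.coe_sdiff] at he
      intro hWw
      apply he.2
      have : e ∈ KE (RE a b c d) (rim a b c d) s c r (↑F : Set Edg) := by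
        rw [mem_KE]
        refine ⟨by exact_mod_cast he.1, ?_⟩
        rcases hc with ⟨_, h5⟩ | ⟨h5, _⟩
        · right; rw [h5]; exact hWV _ hWw
        · left; rw [h5]; exact hWV _ hWw
      exact_mod_cast this
  refine sep_bottom (a := a) (b := b) (c := c) (d := d) (x1 := s + i) (x2 := s + j)
    (x3 := s' + i') (by omega) (by omega) (by omega) (by omega) hcd (W := W)
    (Reach.refl _ _) hcon (hnW _ (Reach.refl _ _)) hu1 hu2 (hnW _ hR) ?_ ?_
  · exact reach_EV (fun w hw => hw) (fun e he => by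
      have : e ∈ F := by exact_mod_cast he
      exact_mod_cast hF this) hcon
  · refine reach_EV (V := fun w => ¬ W w) (fun w hw => hnW w hw) (fun e he => ?_) hR
    rw [Finset.coe_sdiff] at he
    exact he.1

/-- The number of segments for which `H2` occurs is at most the number of crossing clusters. -/
theorem count_H2 {a b c d s : ℤ} {r M : ℕ} {F : Finset Edg} (hcd : c ≤ d)
    (hF : F ⊆ RE a b c d) (ha : a ≤ s) (hb : s + M * (r + 1) ≤ b + 1) (K : Finset Vtx)
    (hK : ∀ k < M, ∀ i ≤ r, sv (s + k * (r + 1)) c i ∈ K) :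
    ∑ k ∈ Finset.range M, ind (H2 (RE a b c d) (rim a b c d) (s + k * (r + 1)) c r (↑F : Set Edg)) ≤
      (NC src tgt K (rim a b c d) (↑F : Set Edg) : ℝ) := by
  classical
  have h1 : ∑ k ∈ Finset.range M,
      ind (H2 (RE a b c d) (rim a b c d) (s + k * (r + 1)) c r (↑F : Set Edg)) =
      (((Finset.range M).filter
        (fun k : ℕ => H2 (RE a b c d) (rim a b c d) (s + k * (r + 1)) c r (↑F : Set Edg))).card : ℝ) := by
    rw [Finset.card_filter]
    push_cast
    apply Finset.sum_congr rfl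
    intro k _
    unfold ind
    split_ifs <;> rfl
  rw [h1]
  unfold NC
  norm_cast
  set Q := (Finset.range M).filter
    (fun k : ℕ => H2 (RE a b c d) (rim a b c d) (s + k * (r + 1)) c r (↑F : Set Edg)) with hQ
  have hex : ∀ k ∈ Q, ∃ i, i ≤ r ∧ nof (rim a b c d) (s + k * (r + 1)) c (↑F : Set Edg) i ∧
      rch (rim a b c d) (s + k * (r + 1)) c (↑F : Set Edg) i ∧ ∃ j ≤ r, i < j ∧
      ¬ VV (rim a b c d) (s + k * (r + 1)) c r (↑F : Set Edg) (sv (s + k * (r + 1)) c j) ∧
      ∃ u ∈ rim a b c d, Reach (↑(RE a b c d \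
        KE (RE a b c d) (rim a b c d) (s + k * (r + 1)) c r ↑F) : Set Edg)
        (sv (s + k * (r + 1)) c j) u := by
    intro k hk
    exact (Finset.mem_filter.mp hk).2
  choose! f hf1 hf2 hf3 hf4 using hex
  have hMk : ∀ k l : ℕ, k < l → s + (k:ℤ) * (r + 1) + r < s + l * (r + 1) := by
    intro k l hkl
    have h2 : (k:ℤ) + 1 ≤ l := by exact_mod_cast hkl
    have h3 : (0:ℤ) ≤ (r:ℤ) + 1 := by positivity
    nlinarith [mul_le_mul_of_nonneg_right h2 h3]
  have hQM : ∀ k ∈ Q, k < M := fun k hk => Finset.mem_range.mp (Finset.mem_filter.mp hk).1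
  have hend : ∀ k ∈ Q, s + (k:ℤ) * (r + 1) + r ≤ b := by
    intro k hk
    have := hMk k M (hQM k hk)
    omega
  have hst : ∀ k : ℕ, a ≤ s + (k:ℤ) * (r + 1) := by
    intro k
    have : (0:ℤ) ≤ (k:ℤ) * (r + 1) := by positivity
    omega
  have hdis : ∀ k ∈ Q, ∀ l ∈ Q, k < l →
      ¬ Reach (↑F : Set Edg) (sv (s + k * (r + 1)) c (f k)) (sv (s + l * (r + 1)) c (f l)) := by
    intro k hk l hl hkl
    obtain ⟨j, hj, hij, hV, hR⟩ := hf4 k hk
    exact distinct hcd hF (hst k) (hMk k l hkl) (hend l hl) (hf1 k hk) (hf2 k hk) hij hj hV hR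
      (hf1 l hl)
  apply Finset.card_le_card_of_injOn
    (fun k : ℕ => clu src tgt (↑F : Set Edg) (sv (s + k * (r + 1)) c (f k)))
  · intro k hk
    rw [Finset.mem_coe] at hk ⊢
    rw [mem_TC]
    obtain ⟨u, hu, hR⟩ := hf3 k hk
    exact ⟨sv (s + k * (r + 1)) c (f k), hK k (hQM k hk) _ (hf1 k hk), ⟨u, hu, hR⟩, rfl⟩
  · intro k hk l hl hkl
    rw [Finset.mem_coe] at hk hl
    simp only at hkl
    rcases lt_trichotomy k l with h | h | h
    · exfalso
      apply hdis k hk l hl h
      have : sv (s + l * (r + 1)) c (f l) ∈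
          clu src tgt (↑F : Set Edg) (sv (s + k * (r + 1)) c (f k)) := by
        rw [hkl]; exact GR.refl _ _
      exact this
    · exact h
    · exfalso
      apply hdis l hl k hk h
      have : sv (s + k * (r + 1)) c (f k) ∈
          clu src tgt (↑F : Set Edg) (sv (s + l * (r + 1)) c (f l)) := by
        rw [← hkl]; exact GR.refl _ _
      exact this

end H973S
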