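import Pool.Agent.H973R3.H3.Markov
import Pool.Agent.H12R2.Sep.Defs

/-!
Exploration of the clusters of the vertices of a segment, from left to right, up to the first one
which reaches the target.
-/

set_option maxHeartbeats 400000

namespace H973S

open H974 H12S Finset

/-- If two configurations agree on the edges of `Ω` touching the cluster of `x` in the first one,
then the cluster of `x` is the same in both. -/
theorem agree {Ω F F' : Set Edg} {x : Vtx} (hF : F ⊆ Ω) (hF' : F' ⊆ Ω)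
    (h : ∀ e ∈ Ω, (Reach F x (src e) ∨ Reach F x (tgt e)) → (e ∈ F ↔ e ∈ F')) (v : Vtx) :
    Reach F x v ↔ Reach F' x v := by
  constructor
  · intro hv
    induction hv with
    | refl => exact Reach.refl _ _
    | @tail v' v'' hp hs ih =>
      obtain ⟨e, he, hc⟩ := hs
      refine ih.trans (Adj.reach ⟨e, (h e (hF he) ?_).mp he, hc⟩)
      rcases hc with ⟨h1, _⟩ | ⟨_, h1⟩
      · left; rw [h1]; exact hp
      · right; rw [h1]; exact hp
  · intro hv
    induction hv with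
    | refl => exact Reach.refl _ _
    | @tail v' v'' _ hs ih =>
      obtain ⟨e, he, hc⟩ := hs
      refine ih.trans (Adj.reach ⟨e, (h e (hF' he) ?_).mpr he, hc⟩)
      rcases hc with ⟨h1, _⟩ | ⟨_, h1⟩
      · left; rw [h1]; exact ih
      · right; rw [h1]; exact ih

/-- Vertex number `i` of the segment. -/
def sv (a y0 : ℤ) (i : ℕ) : Vtx := (a + i, y0)

/-- Vertex number `i` reaches `T`. -/
def rch (T : Set Vtx) (a y0 : ℤ) (F : Set Edg) (i : ℕ) : Prop :=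
  ∃ u ∈ T, Reach F (sv a y0 i) u

/-- No vertex before number `i` reaches `T`. -/
def nof (T : Set Vtx) (a y0 : ℤ) (F : Set Edg) (i : ℕ) : Prop :=
  ∀ j < i, ¬ rch T a y0 F j

/-- The explored vertices. -/
def VV (T : Set Vtx) (a y0 : ℤ) (r : ℕ) (F : Set Edg) (v : Vtx) : Prop :=
  ∃ i ≤ r, nof T a y0 F i ∧ Reach F (sv a y0 i) v

open Classical in
/-- The explored edges. -/
noncomputable def KE (Ω : Finset Edg) (T : Set Vtx) (a y0 : ℤ) (r : ℕ) (F : Set Edg) :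
    Finset Edg :=
  Ω.filter (fun e => VV T a y0 r F (src e) ∨ VV T a y0 r F (tgt e))

theorem mem_KE {Ω : Finset Edg} {T : Set Vtx} {a y0 : ℤ} {r : ℕ} {F : Set Edg} {e : Edg} :
    e ∈ KE Ω T a y0 r F ↔ e ∈ Ω ∧ (VV T a y0 r F (src e) ∨ VV T a y0 r F (tgt e)) := by
  classical
  unfold KE
  rw [Finset.mem_filter]

section stop

variable {Ω F F' : Finset Edg} {T : Set Vtx} {a y0 : ℤ} {r : ℕ}

theorem clu_agree (hF : F ⊆ Ω) (hF' : F' ⊆ Ω)
    (h : F ∩ KE Ω T a y0 r ↑F = F' ∩ KE Ω T a y0 r ↑F) {i : ℕ} (hi : i ≤ r)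
    (hn : nof T a y0 (↑F : Set Edg) i) (v : Vtx) :
    Reach (↑F : Set Edg) (sv a y0 i) v ↔ Reach (↑F' : Set Edg) (sv a y0 i) v := by
  apply agree (Ω := ↑Ω) (by exact_mod_cast hF) (by exact_mod_cast hF')
  intro e he hc
  have hK : e ∈ KE Ω T a y0 r (↑F : Set Edg) := by
    rw [mem_KE]
    refine ⟨by exact_mod_cast he, ?_⟩
    rcases hc with hc | hc
    · exact Or.inl ⟨i, hi, hn, hc⟩
    · exact Or.inr ⟨i, hi, hn, hc⟩
  have h2 : e ∈ F ∩ KE Ω T a y0 r ↑F ↔ e ∈ F' ∩ KE Ω T a y0 r ↑F := by rw [h]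
  rw [Finset.mem_inter, Finset.mem_inter] at h2
  simp only [hK, and_true] at h2
  exact_mod_cast h2

theorem rch_agree (hF : F ⊆ Ω) (hF' : F' ⊆ Ω)
    (h : F ∩ KE Ω T a y0 r ↑F = F' ∩ KE Ω T a y0 r ↑F) {i : ℕ} (hi : i ≤ r)
    (hn : nof T a y0 (↑F : Set Edg) i) :
    rch T a y0 (↑F : Set Edg) i ↔ rch T a y0 (↑F' : Set Edg) i := by
  unfold rch
  simp only [clu_agree hF hF' h hi hn]

theorem nof_agree (hF : F ⊆ Ω) (hF' : F' ⊆ Ω)
    (h : F ∩ KE Ω T a y0 r ↑F = F' ∩ KE Ω T a y0 r ↑F) {i : ℕ} (hi : i ≤ r) :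
    nof T a y0 (↑F : Set Edg) i ↔ nof T a y0 (↑F' : Set Edg) i := by
  constructor
  · intro hn j hj
    rw [← rch_agree hF hF' h (by omega) (fun k hk => hn k (by omega))]
    exact hn j hj
  · intro hn
    by_contra hcon
    have hex : ∃ j, j < i ∧ rch T a y0 (↑F : Set Edg) j := by
      unfold nof at hcon
      push Not at hcon
      exact hcon
    classical
    have hm := Nat.find_spec hex
    have hmin : nof T a y0 (↑F : Set Edg) (Nat.find hex) := by
      intro k hk hr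
      exact Nat.find_min hex hk ⟨by omega, hr⟩
    exact hn _ hm.1 ((rch_agree hF hF' h (by omega) hmin).mp hm.2)

theorem VV_agree (hF : F ⊆ Ω) (hF' : F' ⊆ Ω)
    (h : F ∩ KE Ω T a y0 r ↑F = F' ∩ KE Ω T a y0 r ↑F) (v : Vtx) :
    VV T a y0 r (↑F : Set Edg) v ↔ VV T a y0 r (↑F' : Set Edg) v := by
  constructor
  · rintro ⟨i, hi, hn, hr⟩
    exact ⟨i, hi, (nof_agree hF hF' h hi).mp hn, (clu_agree hF hF' h hi hn v).mp hr⟩
  · rintro ⟨i, hi, hn, hr⟩
    have hn' := (nof_agree hF hF' h hi).mpr hn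
    exact ⟨i, hi, hn', (clu_agree hF hF' h hi hn' v).mpr hr⟩

theorem KE_agree (hF : F ⊆ Ω) (hF' : F' ⊆ Ω)
    (h : F ∩ KE Ω T a y0 r ↑F = F' ∩ KE Ω T a y0 r ↑F) :
    KE Ω T a y0 r (↑F' : Set Edg) = KE Ω T a y0 r (↑F : Set Edg) := by
  ext e
  rw [mem_KE, mem_KE, VV_agree hF hF' h, VV_agree hF hF' h]

end stop

/-- The first cluster which reaches the target leaves room for a second one. -/
def H2 (Ω : Finset Edg) (T : Set Vtx) (a y0 : ℤ) (r : ℕ) (F : Set Edg) : Prop :=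
  ∃ i ≤ r, nof T a y0 F i ∧ rch T a y0 F i ∧ ∃ j ≤ r, i < j ∧ ¬ VV T a y0 r F (sv a y0 j) ∧
    ∃ u ∈ T, Reach (↑(Ω \ KE Ω T a y0 r F) : Set Edg) (sv a y0 j) u

theorem H2_agree {Ω F F' : Finset Edg} {T : Set Vtx} {a y0 : ℤ} {r : ℕ} (hF : F ⊆ Ω)
    (hF' : F' ⊆ Ω) (h : F ∩ KE Ω T a y0 r ↑F = F' ∩ KE Ω T a y0 r ↑F)
    (h2 : H2 Ω T a y0 r (↑F : Set Edg)) : H2 Ω T a y0 r (↑F' : Set Edg) := by
  obtain ⟨i, hi, hn, hr, j, hj, hij, hV, u, hu, hR⟩ := h2
  refine ⟨i, hi, (nof_agree hF hF' h hi).mp hn, (rch_agree hF hF' h hi hn).mp hr, j, hj, hij,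
    fun hV' => hV ((VV_agree hF hF' h _).mpr hV'), u, hu, ?_⟩
  rw [KE_agree hF hF' h]
  exact hR

/-- Two different clusters reaching the target: the second one uses fresh edges. -/
theorem two_arms {Ω F : Finset Edg} {T : Set Vtx} {a y0 : ℤ} {r : ℕ} (hF : F ⊆ Ω)
    {k l : ℕ} (hk : k ≤ r) (hl : l ≤ r) (h1 : rch T a y0 (↑F : Set Edg) k)
    (h2 : rch T a y0 (↑F : Set Edg) l)
    (h3 : ¬ Reach (↑F : Set Edg) (sv a y0 k) (sv a y0 l)) :
    H2 Ω T a y0 r (↑F : Set Edg) ∧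
      ∃ j ≤ r, ∃ u ∈ T, Reach (↑(F \ KE Ω T a y0 r ↑F) : Set Edg) (sv a y0 j) u := by
  classical
  have hex : ∃ i, rch T a y0 (↑F : Set Edg) i := ⟨k, h1⟩
  set i := Nat.find hex with hi
  have hri : rch T a y0 (↑F : Set Edg) i := Nat.find_spec hex
  have hmin : ∀ j, j < i → ¬ rch T a y0 (↑F : Set Edg) j := fun j hj => Nat.find_min hex hj
  have hik : i ≤ k := Nat.find_min' hex h1
  have hil : i ≤ l := Nat.find_min' hex h2
  have hcl : ∃ j ≤ r, rch T a y0 (↑F : Set Edg) j ∧ i ≤ j ∧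
      ¬ Reach (↑F : Set Edg) (sv a y0 i) (sv a y0 j) := by
    by_cases hc : Reach (↑F : Set Edg) (sv a y0 i) (sv a y0 k)
    · exact ⟨l, hl, h2, hil, fun h => h3 (hc.symm.trans h)⟩
    · exact ⟨k, hk, h1, hik, hc⟩
  obtain ⟨j, hj, hrj, hij, hnc⟩ := hcl
  have hij' : i < j := by
    rcases Nat.lt_or_ge i j with h | h
    · exact h
    · exfalso
      apply hnc
      have : i = j := le_antisymm hij h
      rw [← this]
      exact Reach.refl _ _
  have hVV : ¬ VV T a y0 r (↑F : Set Edg) (sv a y0 j) := by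
    rintro ⟨i', hi', hn', hr'⟩
    have hri' : rch T a y0 (↑F : Set Edg) i' := by
      obtain ⟨u, hu, hR⟩ := hrj
      exact ⟨u, hu, hr'.trans hR⟩
    have e1 : i ≤ i' := Nat.find_min' hex hri'
    have e2 : i' ≤ i := by
      by_contra hcon
      exact hn' i (by omega) hri
    have : i = i' := le_antisymm e1 e2
    rw [← this] at hr'
    exact hnc hr'
  obtain ⟨u, hu, hR⟩ := hrj
  have hfresh : ∀ w, Reach (↑F : Set Edg) (sv a y0 j) w →
      Reach (↑(F \ KE Ω T a y0 r ↑F) : Set Edg) (sv a y0 j) w := by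
    intro w hw
    induction hw with
    | refl => exact Reach.refl _ _
    | @tail v' v'' hp hs ih =>
      obtain ⟨e, he, hc⟩ := hs
      have hno : ∀ z, Reach (↑F : Set Edg) (sv a y0 j) z → ¬ VV T a y0 r (↑F : Set Edg) z := by
        rintro z hz ⟨i', hi', hn', hr'⟩
        exact hVV ⟨i', hi', hn', hr'.trans hz.symm⟩
      have hp2 : Reach (↑F : Set Edg) (sv a y0 j) v'' := hp.tail ⟨e, he, hc⟩
      refine ih.trans (Adj.reach ⟨e, ?_, hc⟩)
      rw [Finset.coe_sdiff]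
      refine ⟨he, ?_⟩
      intro hK
      have hK' := (mem_KE.mp (by exact_mod_cast hK)).2
      rcases hc with ⟨h4, h5⟩ | ⟨h4, h5⟩
      · rw [h4, h5] at hK'
        rcases hK' with h6 | h6
        · exact hno _ hp h6
        · exact hno _ hp2 h6
      · rw [h4, h5] at hK'
        rcases hK' with h6 | h6
        · exact hno _ hp2 h6
        · exact hno _ hp h6
  have hsub : (↑(F \ KE Ω T a y0 r ↑F) : Set Edg) ⊆ ↑(Ω \ KE Ω T a y0 r ↑F) := by
    exact_mod_cast Finset.sdiff_subset_sdiff hF (Finset.Subset.refl _)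
  exact ⟨⟨i, by omega, hmin, hri, j, hj, hij', hVV, u, hu, (hfresh u hR).mono hsub⟩,
    j, hj, u, hu, hfresh u hR⟩

end H973S
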