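import Pool.Agent.H973R3.H3.Main

/-!
The three-arm bound in a half ball, assembled.
-/

set_option maxHeartbeats 1000000

namespace H973S

open H974 H12S Finset

/-- The box used for the count. -/
noncomputable def Om (x0 y0 : ℤ) (m : ℕ) : Finset Edg :=
  RE (x0 - 3 * m) (x0 + 3 * m) y0 (y0 + 3 * m)

/-- Its three other sides. -/
def Tg (x0 y0 : ℤ) (m : ℕ) : Set Vtx := rim (x0 - 3 * m) (x0 + 3 * m) y0 (y0 + 3 * m)

theorem h3_term {q : ℝ} (h0 : 0 ≤ q) (h1 : q ≤ 1) {x0 y0 c : ℤ} {r m ρ : ℕ} (hm : 1 ≤ m)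
    (hc1 : x0 - m ≤ c - r) (hc2 : c + r ≤ x0 + m) (hρ : 4 * m ≤ ρ) {S : Finset Edg}
    (hS : Om x0 y0 m ⊆ S) {β : ℝ}
    (hβ : ∀ K, K ⊆ Om x0 y0 m → PQ q (Om x0 y0 m \ K)
      (fun G => ∃ j ≤ 2 * r, ∃ u ∈ Tg x0 y0 m, Reach (↑G : Set Edg) (sv (c - r) y0 j) u) ≤ β) :
    PQ q S (fun F => H3 c y0 r ρ ↑F) ≤
      β * PQ q (Om x0 y0 m) (fun F => H2 (Om x0 y0 m) (Tg x0 y0 m) (c - r) y0 (2 * r) ↑F) := by
  have ok := okq h0 h1
  set A : Finset Edg → Prop := fun G => ∃ k ≤ 2 * r, ∃ l ≤ 2 * r,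
      rch (Tg x0 y0 m) (c - r) y0 (↑G : Set Edg) k ∧
      rch (Tg x0 y0 m) (c - r) y0 (↑G : Set Edg) l ∧
      ¬ Reach (↑G : Set Edg) (sv (c - r) y0 k) (sv (c - r) y0 l) with hA
  have s1 : PQ q S (fun F => H3 c y0 r ρ ↑F) ≤ PQ q S (fun F => A (F ∩ Om x0 y0 m)) :=
    Pr_mono ok (fun F _ hF => h3_sub hm hc1 hc2 hρ hF)
  have s2 : PQ q S (fun F => A (F ∩ Om x0 y0 m)) =
      PQ q (Om x0 y0 m) (fun F => A (F ∩ Om x0 y0 m)) := by
    apply Pr_local hS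
    intro F _
    rw [Finset.inter_assoc, Finset.inter_self]
  have s3 : PQ q (Om x0 y0 m) (fun F => A (F ∩ Om x0 y0 m)) ≤
      PQ q (Om x0 y0 m) (fun F => H2 (Om x0 y0 m) (Tg x0 y0 m) (c - r) y0 (2 * r) ↑F ∧
        (fun (_ : Finset Edg) (G : Finset Edg) => ∃ j ≤ 2 * r, ∃ u ∈ Tg x0 y0 m,
          Reach (↑G : Set Edg) (sv (c - r) y0 j) u)
          (KE (Om x0 y0 m) (Tg x0 y0 m) (c - r) y0 (2 * r) ↑F)
          (F \ KE (Om x0 y0 m) (Tg x0 y0 m) (c - r) y0 (2 * r) ↑F)) := by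
    apply Pr_mono ok
    intro F hF hAF
    rw [Finset.inter_eq_left.mpr hF] at hAF
    obtain ⟨k, hk, l, hl, k1, k2, k3⟩ := hAF
    exact two_arms hF hk hl k1 k2 k3
  have s4 := pr_markov (p := fun _ : Edg => q) ok (S := Om x0 y0 m)
    (fun F => KE (Om x0 y0 m) (Tg x0 y0 m) (c - r) y0 (2 * r) ↑F)
    (fun F _ e he => (mem_KE.mp he).1)
    (fun F F' hF hF' h => KE_agree hF hF' h)
    (fun F => H2 (Om x0 y0 m) (Tg x0 y0 m) (c - r) y0 (2 * r) ↑F)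
    (fun F F' hF hF' h h2 => H2_agree hF hF' h h2)
    (fun _ G => ∃ j ≤ 2 * r, ∃ u ∈ Tg x0 y0 m, Reach (↑G : Set Edg) (sv (c - r) y0 j) u)
    hβ
  exact s1.trans (s2.le.trans (s3.trans s4))

/-- The expected number of crossing clusters is bounded. -/
theorem ex_count {q : ℝ} (h0 : 0 ≤ q) (h1 : q ≤ 1) {x0 y0 : ℤ} {r m M : ℕ} {lam : ℝ}
    (hl : lam < 1) (hM : M * (r + 1) ≤ 2 * m + 1)
    (hlam : PQ q (Om x0 y0 m) (fun F => Crs x0 y0 m (3 * m) ↑F) ≤ lam) :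
    ∑ k ∈ Finset.range M, PQ q (Om x0 y0 m)
      (fun F => H2 (Om x0 y0 m) (Tg x0 y0 m) (x0 - m + k * (r + 1)) y0 r ↑F) ≤
      2 / (1 - lam)^2 := by
  classical
  have ok := okq h0 h1
  set K : Finset Vtx := (Finset.Icc (x0 - m) (x0 + m)) ×ˢ {y0} with hK
  have h2 : Ex (fun _ : Edg => q) (Om x0 y0 m)
      (fun F => ((NC src tgt K (Tg x0 y0 m) (↑F : Set Edg) : ℕ) : ℝ)^2) ≤ 2 / (1 - lam)^2 := by
    apply NC_sq ok _ _ _ _ _ hl
    refine le_trans (Pr_mono ok ?_) hlam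
    rintro F _ ⟨x, hx, b, ⟨hb1, hb2⟩, hr⟩
    rw [hK, Finset.mem_product, Finset.mem_Icc, Finset.mem_singleton] at hx
    refine ⟨x, b, ?_, ?_, hr⟩
    · unfold inR; omega
    · push_cast
      unfold inR at hb1
      omega
  refine le_trans ?_ h2
  unfold PQ Pr
  rw [← Ex_sum]
  apply Ex_mono ok
  intro F hF
  have hle : (M:ℤ) * (r + 1) ≤ 2 * m + 1 := by exact_mod_cast hM
  have h3 := count_H2 (a := x0 - 3 * m) (b := x0 + 3 * m) (c := y0) (d := y0 + 3 * m)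
    (s := x0 - m) (r := r) (M := M) (F := F) (by omega) hF (by omega) (by omega) K
    (by
      intro k hk i hi
      rw [hK, Finset.mem_product, Finset.mem_Icc, Finset.mem_singleton]
      unfold sv
      simp only
      have h4 : (k:ℤ) + 1 ≤ M := by exact_mod_cast hk
      have h5 : (0:ℤ) ≤ (r:ℤ) + 1 := by positivity
      have h6 : ((k:ℤ) + 1) * (r + 1) ≤ M * (r + 1) := mul_le_mul_of_nonneg_right h4 h5
      have h7 : (0:ℤ) ≤ (k:ℤ) * (r + 1) := by positivity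
      have h8 : (i:ℤ) ≤ r := by exact_mod_cast hi
      refine ⟨⟨by omega, by nlinarith⟩, trivial⟩)
  refine h3.trans ?_
  have h9 : ((NC src tgt K (Tg x0 y0 m) (↑F : Set Edg) : ℕ) : ℝ) ≤
      ((NC src tgt K (Tg x0 y0 m) (↑F : Set Edg) : ℕ) : ℝ)^2 := by
    exact_mod_cast Nat.le_self_pow (by norm_num) _
  exact h9

/-- The main inequality. -/
theorem h3_main {q : ℝ} (h0 : 0 ≤ q) (h1 : q ≤ 1) {x0 y0 : ℤ} {r m ρ M : ℕ} (hm : 1 ≤ m)
    (hρ : 4 * m ≤ ρ) {lam β : ℝ} (hl : lam < 1) (hM : M * (2 * r + 1) ≤ 2 * m + 1)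
    (hlam : PQ q (Om x0 y0 m) (fun F => Crs x0 y0 m (3 * m) ↑F) ≤ lam) (hβ0 : 0 ≤ β)
    (hβ : ∀ (s : ℤ), x0 - m ≤ s → s + 2 * r ≤ x0 + m → ∀ K, K ⊆ Om x0 y0 m →
      PQ q (Om x0 y0 m \ K)
        (fun G => ∃ j ≤ 2 * r, ∃ u ∈ Tg x0 y0 m, Reach (↑G : Set Edg) (sv s y0 j) u) ≤ β)
    {S : Finset Edg} (hS : hbU x0 y0 ρ ⊆ S) :
    M * PQ q S (fun F => H3 x0 y0 r ρ ↑F) ≤ β * (2 / (1 - lam)^2) := by
  have hcnt := ex_count (r := 2 * r) h0 h1 hl hM hlam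
  have hterm : ∀ k ∈ Finset.range M, PQ q S (fun F => H3 x0 y0 r ρ ↑F) ≤
      β * PQ q (Om x0 y0 m) (fun F => H2 (Om x0 y0 m) (Tg x0 y0 m)
        (x0 - m + k * ((2 * r : ℕ) + 1)) y0 (2 * r) ↑F) := by
    intro k hk
    rw [Finset.mem_range] at hk
    have h4 : (k:ℤ) + 1 ≤ M := by exact_mod_cast hk
    have h5 : (0:ℤ) ≤ 2 * (r:ℤ) + 1 := by positivity
    have h6 : ((k:ℤ) + 1) * (2 * r + 1) ≤ M * (2 * r + 1) := mul_le_mul_of_nonneg_right h4 h5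
    have h7 : (0:ℤ) ≤ (k:ℤ) * (2 * r + 1) := by positivity
    have hle : (M:ℤ) * (2 * r + 1) ≤ 2 * m + 1 := by exact_mod_cast hM
    have h8 : (k:ℤ) * (2 * r + 1) + 2 * r ≤ 2 * m := by nlinarith
    set s : ℤ := x0 - m + k * (2 * r + 1) with hs
    have hs' : x0 - (m:ℤ) + k * ((2 * r : ℕ) + 1) = s := by push_cast; rw [hs]
    rw [hs']
    have hs1 : x0 - m ≤ s := by omega
    have hs2 : s + 2 * r ≤ x0 + m := by omega
    set δ : ℤ := s + r - x0 with hδ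
    have e1 : x0 + δ = s + r := by omega
    have i1 := h3_move (q := q) h0 h1 x0 y0 δ r ρ (S := S) (S' := hbU (x0 + δ) y0 ρ) hS
      (Finset.Subset.refl _)
    refine i1.trans ?_
    have e2 : s = x0 + δ - r := by omega
    rw [e2]
    apply h3_term h0 h1 hm (by omega) (by omega) hρ
    · unfold Om hbU
      exact RE_subset (by omega) (by omega) le_rfl (by omega)
    · intro K hK
      rw [← e2]
      exact hβ s hs1 hs2 K hK
  have hsum := Finset.sum_le_sum hterm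
  rw [Finset.sum_const, Finset.card_range, nsmul_eq_mul, ← Finset.mul_sum] at hsum
  refine hsum.trans (mul_le_mul_of_nonneg_left ?_ hβ0)
  exact hcnt

end H973S
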