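import Pool.Agent.H973R3.H3.Dist

/-!
The three-arm bound in a half ball, from the one-arm bound.
-/

set_option maxHeartbeats 1000000

namespace H973S

open H974 H12S Finset

theorem coe_inter' (F S : Finset Edg) : ((↑(F ∩ S) : Set Edg)) = ↑F ∩ ↑S := by
  exact_mod_cast rfl

theorem h3_local {q : ℝ} {x0 y0 : ℤ} {r ρ : ℕ} {S : Finset Edg} (hS : hbU x0 y0 ρ ⊆ S) :
    PQ q S (fun F => H3 x0 y0 r ρ ↑F) = PQ q (hbU x0 y0 ρ) (fun F => H3 x0 y0 r ρ ↑F) := by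
  apply Pr_local hS
  intro F _
  unfold H3 H3g
  rw [coe_inter', Set.inter_assoc, Set.inter_self]

theorem h3_shift {x0 y0 s : ℤ} {r ρ : ℕ} {F : Finset Edg} (h : H3 x0 y0 r ρ (↑F : Set Edg)) :
    H3 (x0 + s) y0 r ρ (↑((trl s 0).mp F) : Set Edg) := by
  have hset : (↑((trl s 0).mp F) : Set Edg) ∩ ↑(hbU (x0 + s) y0 ρ) =
      (trl s 0).φ '' (↑F ∩ ↑(hbU x0 y0 ρ)) := by
    have h1 : hbU (x0 + s) y0 ρ = (trl s 0).mp (hbU x0 y0 ρ) := by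
      unfold hbU
      rw [trl_RE]
      congr 1 <;> ring
    rw [h1, LSym.coe_mp, LSym.coe_mp, Set.image_inter (trl s 0).φ.injective]
  unfold H3 H3g at h ⊢
  obtain ⟨v, hv, v', hv', ⟨b, hb, h1⟩, ⟨b', hb', h2⟩, h3⟩ := h
  rw [hset]
  refine ⟨(trl s 0).ψ v, ?_, (trl s 0).ψ v', ?_, ⟨(trl s 0).ψ b, ?_, (trl s 0).reach h1⟩,
    ⟨(trl s 0).ψ b', ?_, (trl s 0).reach h2⟩, fun h4 => h3 ((trl s 0).reach_iff.mp h4)⟩
  · obtain ⟨k1, k2, k3⟩ := hv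
    refine ⟨?_, ?_, ?_⟩
    · show v.2 + 0 = y0; omega
    · show x0 + s - r ≤ v.1 + s; omega
    · show v.1 + s ≤ x0 + s + r; omega
  · obtain ⟨k1, k2, k3⟩ := hv'
    refine ⟨?_, ?_, ?_⟩
    · show v'.2 + 0 = y0; omega
    · show x0 + s - r ≤ v'.1 + s; omega
    · show v'.1 + s ≤ x0 + s + r; omega
  · obtain ⟨⟨⟨k1, k2⟩, k3, k4⟩, k5⟩ := hb
    refine ⟨⟨⟨?_, ?_⟩, ?_, ?_⟩, ?_⟩
    · show x0 + s - ρ ≤ b.1 + s; omega
    · show b.1 + s ≤ x0 + s + ρ; omega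
    · show y0 ≤ b.2 + 0; omega
    · show b.2 + 0 ≤ y0 + ρ; omega
    · show b.1 + s = x0 + s - ρ ∨ b.1 + s = x0 + s + ρ ∨ b.2 + 0 = y0 + ρ; omega
  · obtain ⟨⟨⟨k1, k2⟩, k3, k4⟩, k5⟩ := hb'
    refine ⟨⟨⟨?_, ?_⟩, ?_, ?_⟩, ?_⟩
    · show x0 + s - ρ ≤ b'.1 + s; omega
    · show b'.1 + s ≤ x0 + s + ρ; omega
    · show y0 ≤ b'.2 + 0; omega
    · show b'.2 + 0 ≤ y0 + ρ; omega
    · show b'.1 + s = x0 + s - ρ ∨ b'.1 + s = x0 + s + ρ ∨ b'.2 + 0 = y0 + ρ; omega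

theorem h3_move {q : ℝ} (h0 : 0 ≤ q) (h1 : q ≤ 1) (x0 y0 s : ℤ) (r ρ : ℕ) {S S' : Finset Edg}
    (hS : hbU x0 y0 ρ ⊆ S) (hS' : hbU (x0 + s) y0 ρ ⊆ S') :
    PQ q S (fun F => H3 x0 y0 r ρ ↑F) ≤ PQ q S' (fun F => H3 (x0 + s) y0 r ρ ↑F) := by
  rw [h3_local hS, h3_local hS']
  have h2 : hbU (x0 + s) y0 ρ = (trl s 0).mp (hbU x0 y0 ρ) := by
    unfold hbU
    rw [trl_RE]
    congr 1 <;> ring
  rw [h2]
  unfold PQ
  rw [(trl s 0).pr]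
  exact Pr_mono (okq h0 h1) (fun F _ hF => h3_shift hF)

/-- A path of the half ball of radius `ρ` which reaches its rim also reaches the rim of a smaller
box. -/
theorem reach_small {c x0 y0 : ℤ} {m ρ : ℕ} {F : Set Edg} (hm : 1 ≤ m) (hc : |c - x0| ≤ m)
    (hρ : 4 * m ≤ ρ) {v b : Vtx} (hv : v.2 = y0) (hv1 : |v.1 - x0| ≤ m)
    (hb : b ∈ rimU c y0 ρ) (h : Reach (F ∩ ↑(hbU c y0 ρ)) v b) :
    ∃ u ∈ rim (x0 - 3 * m) (x0 + 3 * m) y0 (y0 + 3 * m),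
      Reach (F ∩ ↑(RE (x0 - 3 * m) (x0 + 3 * m) y0 (y0 + 3 * m))) v u := by
  rw [abs_le] at hc hv1
  obtain ⟨⟨⟨k1, k2⟩, k3, k4⟩, k5⟩ := hb
  obtain ⟨w, w1, w2, w3⟩ := first_exit (a := x0 - 3 * m) (b := x0 + 3 * m) (c := y0 - 1)
    (d := y0 + 3 * m) (by unfold inR; omega) h (by omega)
  have hinv : ∀ z, Reach (F ∩ ↑(hbU c y0 ρ) ∩
      ↑(RE (x0 - 3 * m) (x0 + 3 * m) (y0 - 1) (y0 + 3 * m))) v z → y0 ≤ z.2 := by
    intro z hz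
    induction hz with
    | refl => omega
    | @tail z z' _ hs ih =>
      obtain ⟨⟨x, y, bo⟩, ⟨⟨_, he⟩, _⟩, hcase⟩ := hs
      unfold hbU at he
      cases bo
      · simp only [Finset.mem_coe, mem_RE_false] at he
        simp only [src_mk, tgt_false] at hcase
        rcases hcase with ⟨h3, h4⟩ | ⟨h3, h4⟩
        · rw [← h4]; simp only; omega
        · rw [← h3]; simp only; omega
      · simp only [Finset.mem_coe, mem_RE_true] at he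
        simp only [src_mk, tgt_true] at hcase
        rcases hcase with ⟨h3, h4⟩ | ⟨h3, h4⟩
        · rw [← h4]; simp only; omega
        · rw [← h3]; simp only; omega
  have hw := hinv w w3
  refine ⟨w, ⟨?_, ?_⟩, w3.mono ?_⟩
  · unfold inR at w1 ⊢; omega
  · omega
  · rintro ⟨x, y, bo⟩ ⟨⟨e1, e2⟩, e3⟩
    refine ⟨e1, ?_⟩
    unfold hbU at e2
    cases bo
    · simp only [Finset.mem_coe, mem_RE_false] at e2 e3 ⊢; omega
    · simp only [Finset.mem_coe, mem_RE_true] at e2 e3 ⊢; omega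

theorem h3_sub {c x0 y0 : ℤ} {r m ρ : ℕ} {F : Finset Edg} (hm : 1 ≤ m)
    (hc1 : x0 - m ≤ c - r) (hc2 : c + r ≤ x0 + m) (hρ : 4 * m ≤ ρ)
    (h : H3 c y0 r ρ (↑F : Set Edg)) :
    ∃ k ≤ 2 * r, ∃ l ≤ 2 * r,
      rch (rim (x0 - 3 * m) (x0 + 3 * m) y0 (y0 + 3 * m)) (c - r) y0
        (↑(F ∩ RE (x0 - 3 * m) (x0 + 3 * m) y0 (y0 + 3 * m)) : Set Edg) k ∧
      rch (rim (x0 - 3 * m) (x0 + 3 * m) y0 (y0 + 3 * m)) (c - r) y0
        (↑(F ∩ RE (x0 - 3 * m) (x0 + 3 * m) y0 (y0 + 3 * m)) : Set Edg) l ∧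
      ¬ Reach (↑(F ∩ RE (x0 - 3 * m) (x0 + 3 * m) y0 (y0 + 3 * m)) : Set Edg)
        (sv (c - r) y0 k) (sv (c - r) y0 l) := by
  obtain ⟨v, ⟨hv1, hv2, hv3⟩, v', ⟨hv1', hv2', hv3'⟩, ⟨b, hb, h1⟩, ⟨b', hb', h2⟩, h3⟩ := h
  have hc : |c - x0| ≤ m := by rw [abs_le]; omega
  obtain ⟨u, hu, hR⟩ := reach_small hm hc hρ hv1 (by rw [abs_le]; omega) hb h1
  obtain ⟨u', hu', hR'⟩ := reach_small hm hc hρ hv1' (by rw [abs_le]; omega) hb' h2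
  have e1 : sv (c - r) y0 (v.1 - (c - r)).toNat = v := by
    unfold sv
    ext
    · simp only; omega
    · simp only; omega
  have e2 : sv (c - r) y0 (v'.1 - (c - r)).toNat = v' := by
    unfold sv
    ext
    · simp only; omega
    · simp only; omega
  refine ⟨(v.1 - (c - r)).toNat, by omega, (v'.1 - (c - r)).toNat, by omega, ?_, ?_, ?_⟩
  · unfold rch
    rw [e1, coe_inter']
    exact ⟨u, hu, hR⟩
  · unfold rch
    rw [e2, coe_inter']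
    exact ⟨u', hu', hR'⟩
  · rw [e1, e2, coe_inter']
    intro h4
    apply h3
    apply h4.mono
    apply Set.inter_subset_inter_right
    unfold hbU
    exact_mod_cast RE_subset (by omega) (by omega) le_rfl (by omega)

end H973S
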