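import Pool.Agent.H974R2.Basic

/-!
The Markov property of a product measure with respect to a stopping set.
-/

namespace H973S

open Finset H974

variable {E : Type*} [DecidableEq E]

/-- If the value of the random set `K F` and the truth of `A F` are both determined by
`F ∩ K F`, then the configuration outside `K F` is fresh. -/
theorem pr_markov {p : E → ℝ} (hp : Ok p) {S : Finset E} (K : Finset E → Finset E)
    (hK : ∀ F, F ⊆ S → K F ⊆ S)
    (hstop : ∀ F F', F ⊆ S → F' ⊆ S → F ∩ K F = F' ∩ K F → K F' = K F)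
    (A : Finset E → Prop)
    (hA : ∀ F F', F ⊆ S → F' ⊆ S → F ∩ K F = F' ∩ K F → A F → A F')
    (B : Finset E → Finset E → Prop) {β : ℝ}
    (hβ : ∀ k, k ⊆ S → Pr p (S \ k) (B k) ≤ β) :
    Pr p S (fun F => A F ∧ B (K F) (F \ K F)) ≤ β * Pr p S A := by
  classical
  set Q : Finset (Finset E × Finset E) := S.powerset ×ˢ S.powerset with hQ
  have hdec : ∀ (g : Finset E → ℝ), Ex p S g =
      ∑ ko ∈ Q, Ex p S (fun F => ind (K F = ko.1 ∧ F ∩ ko.1 = ko.2) * g F) := by
    intro g
    rw [← Ex_sum]
    apply Ex_congr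
    intro F hF
    rw [← Finset.sum_mul]
    have h1 : ∑ ko ∈ Q, ind (K F = ko.1 ∧ F ∩ ko.1 = ko.2) = 1 := by
      rw [Finset.sum_eq_single (K F, F ∩ K F)]
      · exact ind_of ⟨rfl, rfl⟩
      · rintro ⟨k, o⟩ _ hne
        apply ind_not_of
        rintro ⟨h2, h3⟩
        apply hne
        simp only at h2 h3
        rw [← h3, ← h2]
      · intro hne
        exfalso
        apply hne
        rw [hQ, Finset.mem_product, Finset.mem_powerset, Finset.mem_powerset]
        exact ⟨hK F hF, Finset.inter_subset_left.trans hF⟩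
    rw [h1, one_mul]
  have hterm : ∀ ko ∈ Q,
      Ex p S (fun F => ind (K F = ko.1 ∧ F ∩ ko.1 = ko.2) * ind (A F ∧ B (K F) (F \ K F))) ≤
      β * Ex p S (fun F => ind (K F = ko.1 ∧ F ∩ ko.1 = ko.2) * ind (A F)) := by
    rintro ⟨k, o⟩ hko
    rw [hQ, Finset.mem_product, Finset.mem_powerset, Finset.mem_powerset] at hko
    simp only at hko ⊢
    by_cases hgood : ∃ F0, F0 ⊆ S ∧ (K F0 = k ∧ F0 ∩ k = o) ∧ A F0
    · obtain ⟨F0, hF0, ⟨hk0, ho0⟩, hA0⟩ := hgood
      have key : ∀ F, F ⊆ S → ((K F = k ∧ F ∩ k = o) ↔ F ∩ k = o) := by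
        intro F hF
        refine ⟨fun h => h.2, fun h => ⟨?_, h⟩⟩
        rw [← hk0]
        apply hstop F0 F hF0 hF
        rw [hk0, ho0, h]
      have keyA : ∀ F, F ⊆ S → F ∩ k = o → A F := by
        intro F hF h
        apply hA F0 F hF0 hF _ hA0
        rw [hk0, ho0, h]
      have e1 : Ex p S (fun F => ind (K F = k ∧ F ∩ k = o) * ind (A F ∧ B (K F) (F \ K F))) =
          Ex p S (fun F => ind (F ∩ k = o) * ind (B k (F \ k))) := by
        apply Ex_congr
        intro F hF
        by_cases h : F ∩ k = o
        · have h2 := (key F hF).mpr h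
          have h3 := keyA F hF h
          rw [ind_of h2, ind_of h, h2.1]
          congr 1
          exact ind_congr ⟨fun h4 => h4.2, fun h4 => ⟨h3, h4⟩⟩
        · rw [ind_not_of h, ind_not_of (fun h2 => h h2.2)]
          ring
      have e2 : Ex p S (fun F => ind (K F = k ∧ F ∩ k = o) * ind (A F)) =
          Ex p S (fun F => ind (F ∩ k = o)) := by
        apply Ex_congr
        intro F hF
        by_cases h : F ∩ k = o
        · have h2 := (key F hF).mpr h
          have h3 := keyA F hF h
          rw [ind_of h2, ind_of h, ind_of h3]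
          ring
        · rw [ind_not_of h, ind_not_of (fun h2 => h h2.2)]
          ring
      rw [e1, e2]
      have hsd : ∀ F, F ⊆ S → (F ∩ (S \ k)) \ k = F \ k := by
        intro F hF
        ext x
        simp only [Finset.mem_sdiff, Finset.mem_inter]
        constructor
        · rintro ⟨⟨h1, _⟩, h2⟩; exact ⟨h1, h2⟩
        · rintro ⟨h1, h2⟩; exact ⟨⟨h1, hF h1, h2⟩, h2⟩
      have e3 := Ex_mul_indep (p := p) (U := S) (S := k) (T := S \ k) hko.1 Finset.sdiff_subset
        Finset.disjoint_sdiff (f := fun F => ind (F ∩ k = o)) (g := fun F => ind (B k (F \ k)))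
        (by
          intro F _
          apply ind_congr
          rw [Finset.inter_assoc, Finset.inter_self])
        (fun F hF => ind_congr (by rw [hsd F hF]))
      rw [e3]
      have e4 : Ex p S (fun F => ind (B k (F \ k))) = Pr p (S \ k) (B k) := by
        rw [Ex_local (S := S) (S' := S \ k) Finset.sdiff_subset]
        · unfold Pr
          apply Ex_congr
          intro F hF
          apply ind_congr
          have : F \ k = F := by
            rw [Finset.sdiff_eq_self_iff_disjoint, Finset.disjoint_left]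
            intro x hx hxk
            exact (Finset.mem_sdiff.mp (hF hx)).2 hxk
          rw [this]
        · intro F hF
          apply ind_congr
          rw [hsd F hF]
      rw [e4, mul_comm]
      exact mul_le_mul_of_nonneg_right (hβ k hko.1) (Ex_nonneg hp (fun _ _ => ind_nonneg _))
    · have z : ∀ F, F ⊆ S → ind (K F = k ∧ F ∩ k = o) * ind (A F) = 0 := by
        intro F hF
        by_cases h : (K F = k ∧ F ∩ k = o) ∧ A F
        · exact absurd ⟨F, hF, h.1, h.2⟩ hgood
        · rw [← ind_and, ind_not_of h]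
      have e1 : Ex p S (fun F => ind (K F = k ∧ F ∩ k = o) * ind (A F ∧ B (K F) (F \ K F))) = 0 := by
        rw [Ex_congr (g := fun _ => (0:ℝ)), Ex_const]
        intro F hF
        rw [ind_and (A F)]
        rw [← mul_assoc, z F hF, zero_mul]
      have e2 : Ex p S (fun F => ind (K F = k ∧ F ∩ k = o) * ind (A F)) = 0 := by
        rw [Ex_congr (g := fun _ => (0:ℝ)) z, Ex_const]
      rw [e1, e2, mul_zero]
  unfold Pr
  rw [hdec, hdec (fun F => ind (A F)), Finset.mul_sum]
  exact Finset.sum_le_sum hterm

end H973S
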