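import Pool.Agent.H973R3.H3.Expl
import Pool.Agent.H973R2.Arm3

/-!
Two vertices of the bottom side joined by a path separate the vertices of the bottom side lying
between them from the three other sides.
-/

set_option maxHeartbeats 1000000

namespace H973S

open H974 H12S H973 Finset

theorem sep_bottom {a b c d x1 x2 x3 : ℤ} (h12 : x1 < x2) (h23 : x2 < x3) (ha : a ≤ x1)
    (hb : x3 ≤ b) (hcd : c ≤ d) {W : Vtx → Prop} (hW1 : W (x1, c)) (hW3 : W (x3, c))
    (hW2 : ¬ W (x2, c)) {u : Vtx} (hu : inR a b c d u) (hrim : u.1 = a ∨ u.1 = b ∨ u.2 = d)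
    (hWu : ¬ W u)
    (h1 : Reach (EV W ∩ ↑(RE a b c d)) (x1, c) (x3, c))
    (h2 : Reach (EV (fun w => ¬ W w) ∩ ↑(RE a b c d)) (x2, c) u) : False := by
  obtain ⟨u1, u2⟩ := u
  unfold inR at hu
  simp only at hu hrim
  set V : Vtx → Prop := fun w => (W w ∧ inR a b c d w) ∨ (w.2 = c - 1 ∧ (w.1 ≤ x1 ∨ x3 ≤ w.1))
    with hV
  set V' : Vtx → Prop := fun w => ¬ V w with hV'
  have hsub : (↑(RE a b c d) : Set Edg) ⊆ ↑(RE (a - 1) (b + 1) (c - 1) (d + 1)) := by
    exact_mod_cast RE_subset (by omega) (by omega) (by omega) (by omega)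
  -- the first path
  have p1 : Reach (EV V ∩ ↑(RE (a - 1) (b + 1) (c - 1) (d + 1))) (a - 1, c - 1) (x1, c - 1) :=
    hline' (by omega) le_rfl (by omega) (by omega) (fun k _ hk => Or.inr ⟨rfl, Or.inl hk⟩)
  have p2 : Reach (EV V ∩ ↑(RE (a - 1) (b + 1) (c - 1) (d + 1))) (x1, c - 1) (x1, c) := by
    apply Adj.reach
    refine ⟨(x1, c - 1, false), ⟨⟨Or.inr ⟨rfl, Or.inl le_rfl⟩, ?_⟩, ?_⟩, Or.inl ⟨rfl, ?_⟩⟩
    · left
      simp only [tgt_false, sub_add_cancel]
      exact ⟨hW1, by unfold inR; simp only; omega⟩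
    · simp only [Finset.mem_coe, mem_RE_false]; omega
    · simp only [tgt_false, sub_add_cancel]
  have p3 : Reach (EV V ∩ ↑(RE (a - 1) (b + 1) (c - 1) (d + 1))) (x1, c) (x3, c) := by
    apply h1.mono
    rintro ⟨x, y, bo⟩ ⟨⟨k1, k2⟩, k3⟩
    refine ⟨⟨Or.inl ⟨k1, ?_⟩, Or.inl ⟨k2, ?_⟩⟩, hsub k3⟩
    · cases bo
      · simp only [Finset.mem_coe, mem_RE_false] at k3
        simp only [src_mk, inR]; omega
      · simp only [Finset.mem_coe, mem_RE_true] at k3
        simp only [src_mk, inR]; omega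
    · cases bo
      · simp only [Finset.mem_coe, mem_RE_false] at k3
        simp only [tgt_false, inR]; omega
      · simp only [Finset.mem_coe, mem_RE_true] at k3
        simp only [tgt_true, inR]; omega
  have p4 : Reach (EV V ∩ ↑(RE (a - 1) (b + 1) (c - 1) (d + 1))) (x3, c) (x3, c - 1) := by
    apply Adj.reach
    refine ⟨(x3, c - 1, false), ⟨⟨Or.inr ⟨rfl, Or.inr le_rfl⟩, ?_⟩, ?_⟩, Or.inr ⟨rfl, ?_⟩⟩
    · left
      simp only [tgt_false, sub_add_cancel]
      exact ⟨hW3, by unfold inR; simp only; omega⟩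
    · simp only [Finset.mem_coe, mem_RE_false]; omega
    · simp only [tgt_false, sub_add_cancel]
  have p5 : Reach (EV V ∩ ↑(RE (a - 1) (b + 1) (c - 1) (d + 1))) (x3, c - 1) (b + 1, c - 1) :=
    hline' (by omega) (by omega) (by omega) le_rfl (fun k hk _ => Or.inr ⟨rfl, Or.inr hk⟩)
  have hp := p1.trans (p2.trans (p3.trans (p4.trans p5)))
  -- the second path
  have n2 : V' (x2, c) := by
    rintro (⟨k, -⟩ | ⟨k, -⟩)
    · exact hW2 k
    · simp only at k; omega
  have n3 : V' (x2, c - 1) := by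
    rintro (⟨-, k⟩ | ⟨-, k⟩)
    · unfold inR at k; simp only at k; omega
    · simp only at k; omega
  have nu : V' (u1, u2) := by
    rintro (⟨k, -⟩ | ⟨k, -⟩)
    · exact hWu k
    · simp only at k; omega
  have q1 : Reach (EV V' ∩ ↑(RE (a - 1) (b + 1) (c - 1) (d + 1))) (x2, c - 1) (x2, c) := by
    apply Adj.reach
    refine ⟨(x2, c - 1, false), ⟨⟨n3, ?_⟩, ?_⟩, Or.inl ⟨rfl, ?_⟩⟩
    · simp only [tgt_false, sub_add_cancel]; exact n2
    · simp only [Finset.mem_coe, mem_RE_false]; omega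
    · simp only [tgt_false, sub_add_cancel]
  have q2 : Reach (EV V' ∩ ↑(RE (a - 1) (b + 1) (c - 1) (d + 1))) (x2, c) (u1, u2) := by
    apply h2.mono
    rintro ⟨x, y, bo⟩ ⟨⟨k1, k2⟩, k3⟩
    refine ⟨⟨?_, ?_⟩, hsub k3⟩
    · rintro (⟨k4, -⟩ | ⟨k4, -⟩)
      · exact k1 k4
      · cases bo
        · simp only [Finset.mem_coe, mem_RE_false] at k3
          simp only [src_mk] at k4; omega
        · simp only [Finset.mem_coe, mem_RE_true] at k3
          simp only [src_mk] at k4; omega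
    · rintro (⟨k4, -⟩ | ⟨k4, -⟩)
      · exact k2 k4
      · cases bo
        · simp only [Finset.mem_coe, mem_RE_false] at k3
          simp only [tgt_false] at k4; omega
        · simp only [Finset.mem_coe, mem_RE_true] at k3
          simp only [tgt_true] at k4; omega
  have q3 : ∃ w : Vtx, d + 1 ≤ w.2 ∧
      Reach (EV V' ∩ ↑(RE (a - 1) (b + 1) (c - 1) (d + 1))) (u1, u2) w := by
    have out : ∀ w : Vtx, c ≤ w.2 → (w.1 < a ∨ b < w.1 ∨ d < w.2) → V' w := by
      rintro w hc ho (⟨-, k⟩ | ⟨k, -⟩)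
      · unfold inR at k; omega
      · omega
    rcases hrim with h | h | h
    · refine ⟨(a - 1, d + 1), le_rfl, ?_⟩
      have r1 : Reach (EV V' ∩ ↑(RE (a - 1) (b + 1) (c - 1) (d + 1))) (u1, u2) (a - 1, u2) := by
        apply Adj.reach
        refine ⟨(a - 1, u2, true), ⟨⟨out _ (by simp only [src_mk]; omega)
          (by simp only [src_mk]; omega), ?_⟩, ?_⟩, Or.inr ⟨rfl, ?_⟩⟩
        · simp only [tgt_true, sub_add_cancel]; rw [← h]; exact nu
        · simp only [Finset.mem_coe, mem_RE_true]; omega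
        · simp only [tgt_true, sub_add_cancel, h]
      exact r1.trans (vline' (by omega) (by omega) (by omega) le_rfl
        (fun k k1 _ => out _ (by simp only; omega) (by simp only; omega)))
    · refine ⟨(b + 1, d + 1), le_rfl, ?_⟩
      have r1 : Reach (EV V' ∩ ↑(RE (a - 1) (b + 1) (c - 1) (d + 1))) (u1, u2) (b + 1, u2) := by
        apply Adj.reach
        refine ⟨(b, u2, true), ⟨⟨?_, ?_⟩, ?_⟩, Or.inl ⟨?_, rfl⟩⟩
        · simp only [src_mk]; rw [← h]; exact nu
        · exact out _ (by simp only [tgt_true]; omega) (by simp only [tgt_true]; omega)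
        · simp only [Finset.mem_coe, mem_RE_true]; omega
        · simp only [src_mk, h]
      exact r1.trans (vline' (by omega) (by omega) (by omega) le_rfl
        (fun k k1 _ => out _ (by simp only; omega) (by simp only; omega)))
    · refine ⟨(u1, d + 1), le_rfl, ?_⟩
      apply Adj.reach
      refine ⟨(u1, d, false), ⟨⟨?_, ?_⟩, ?_⟩, Or.inl ⟨?_, rfl⟩⟩
      · simp only [src_mk]; rw [← h]; exact nu
      · exact out _ (by simp only [tgt_false]; omega) (by simp only [tgt_false]; omega)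
      · simp only [Finset.mem_coe, mem_RE_false]; omega
      · simp only [src_mk, h]
  obtain ⟨w, hw, q4⟩ := q3
  exact no_cross (a := a - 1) (b := b + 1) (c := c - 1) (d := d + 1) (by omega) (by omega)
    (V := V) (V' := V') (fun w k1 k2 => k2 k1) hp (by simp) (by simp)
    (Or.inr ⟨rfl, Or.inl (by simp only; omega)⟩) (q1.trans (q2.trans q4)) (by simp) hw n3

end H973S
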